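import Mathlib
import Pool.Agent.Q112.LogOzone

/-!
# Graded polynomial Poisson algebras whose log-ozone group is larger than the rank

On `k[x, y_1, ..., y_n]` the bracket `{x, y_i} = y_i²`, `{y_i, y_j} = 0` is graded; its rank over
the Poisson center is at most `p²`, while the log-ozone group has at least `p^n` elements.
-/

namespace Pool.Agent.Results.MP_987c99_al.LogOzoneLarge

open Pool.Agent.Q112.LogOzone

/-- For every prime `p`, every field `k` of characteristic `p` and every `n ≥ 3` there is a graded
Poisson bracket on the polynomial ring in `n + 1` variables over `k` whose rank over the Poisson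
center is at most `p ^ 2` and whose log-ozone group has at least `p ^ n` elements. -/
theorem result (p : ℕ) [Fact p.Prime] (k : Type) [Field k] [CharP k p] (n : ℕ) (hn : 3 ≤ n) :
    ∃ B : PoissonBracket k (MvPolynomial (Fin (n + 1)) k), IsGraded B ∧
      B.centerRank ≤ (p : Cardinal) ^ 2 ∧
      (p : Cardinal) ^ n ≤ Cardinal.mk B.loz :=
  main p k n hn

end Pool.Agent.Results.MP_987c99_al.LogOzoneLarge
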